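import Pool.Agent.Helper30.AC.Stmts

/-! # Row CL: continuous affine maps on the constant sequences -/

set_option autoImplicit false

namespace Pool.Agent.Helper43.AC

open Filter Topology Pool.Agent.Helper30.AC

universe u

theorem cl_const {E : Type u} [NormedAddCommGroup E] [NormedSpace ℝ E] (K : Set E)
    (y : ℕ → E →L[ℝ] ℝ) {v : E} (hv : v ∈ K) : LL y (fun _ => v) ∈ XX K y := by
  refine ⟨(fun _ => 1, fun _ => v), ?_, rfl⟩
  intro n
  constructor
  · exact ⟨zero_le_one, le_rfl, v, hv, (one_smul _ _).symm⟩
  · show 0 ≤ (1 : ℝ) - 1 ∧ (1 : ℝ) - 1 ≤ 1 ∧ ∃ k ∈ K, v - v = ((1 : ℝ) - 1) • k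
    rw [sub_self, sub_self]
    exact ⟨le_rfl, zero_le_one, v, hv, (zero_smul _ _).symm⟩

theorem cl_mem {E : Type u} [NormedAddCommGroup E] [NormedSpace ℝ E] (K : Set E)
    (y : ℕ → E →L[ℝ] ℝ) (N : ℕ) {v : E} (hv : v ∈ K) :
    LL y (fun n => if n < N then v else 0) ∈ XX K y := by
  refine ⟨(fun n => if n < N then 1 else 0, fun n => if n < N then v else 0), ?_, rfl⟩
  intro n
  constructor
  · show 0 ≤ (if n < N then (1 : ℝ) else 0) ∧ (if n < N then (1 : ℝ) else 0) ≤ 1 ∧
      ∃ k ∈ K, (if n < N then v else 0) = (if n < N then (1 : ℝ) else 0) • k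
    by_cases h : n < N
    · simp only [if_pos h]
      exact ⟨zero_le_one, le_rfl, v, hv, (one_smul _ _).symm⟩
    · simp only [if_neg h]
      exact ⟨le_rfl, zero_le_one, v, hv, (zero_smul _ _).symm⟩
  · show 0 ≤ (if n < N then (1 : ℝ) else 0) - (if n + 1 < N then 1 else 0) ∧
      (if n < N then (1 : ℝ) else 0) - (if n + 1 < N then 1 else 0) ≤ 1 ∧
      ∃ k ∈ K, (if n < N then v else 0) - (if n + 1 < N then v else 0) =
        ((if n < N then (1 : ℝ) else 0) - (if n + 1 < N then 1 else 0)) • k
    by_cases h : n < N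
    · by_cases h' : n + 1 < N
      · simp only [if_pos h, if_pos h', sub_self]
        exact ⟨le_rfl, zero_le_one, v, hv, (zero_smul _ _).symm⟩
      · simp only [if_pos h, if_neg h', sub_zero]
        exact ⟨zero_le_one, le_rfl, v, hv, (one_smul _ _).symm⟩
    · have h' : ¬ n + 1 < N := by omega
      simp only [if_neg h, if_neg h', sub_zero]
      exact ⟨le_rfl, zero_le_one, v, hv, (zero_smul _ _).symm⟩

theorem st_CL (_h0 : ST_COM.{u}) (h1 : ST_ALG.{u}) : ST_CL.{u} := by
  intro E _ _ K y F hK hF hA
  refine ⟨fun v hv => cl_const K y hv, ?_⟩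
  intro ε hε
  have key : ∃ N : ℕ, ∀ (v : E) (hv : v ∈ K), ‖F ⟨LL y (fun _ => v), cl_const K y hv⟩ -
      F ⟨LL y (fun n => if n < N then v else 0), cl_mem K y N hv⟩‖ ≤ ε := by
    by_contra hcon
    push Not at hcon
    choose v hv hlt using hcon
    obtain ⟨a, ha, φ, hφ, hlim⟩ := hK.1.tendsto_subseq hv
    have hl : ∀ i, Tendsto (fun j => y i (v (φ j))) atTop (𝓝 (y i a)) := fun i =>
      ((y i).continuous.tendsto a).comp hlim
    have t1 : Tendsto (fun j => (⟨LL y (fun _ => v (φ j)), cl_const K y (hv _)⟩ : XX K y)) atTop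
        (𝓝 ⟨LL y (fun _ => a), cl_const K y ha⟩) := by
      rw [tendsto_subtype_rng, tendsto_pi_nhds]
      intro n
      rw [tendsto_pi_nhds]
      intro i
      show Tendsto (fun j => if i ≤ n then y i (v (φ j)) else 0) atTop
        (𝓝 (if i ≤ n then y i a else 0))
      by_cases h : i ≤ n
      · simp only [if_pos h]
        exact hl i
      · simp only [if_neg h]
        exact tendsto_const_nhds
    have t2 : Tendsto (fun j => (⟨LL y (fun n => if n < φ j then v (φ j) else 0),
        cl_mem K y (φ j) (hv _)⟩ : XX K y)) atTop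
        (𝓝 ⟨LL y (fun _ => a), cl_const K y ha⟩) := by
      rw [tendsto_subtype_rng, tendsto_pi_nhds]
      intro n
      rw [tendsto_pi_nhds]
      intro i
      show Tendsto (fun j => if i ≤ n then y i (if n < φ j then v (φ j) else 0) else 0) atTop
        (𝓝 (if i ≤ n then y i a else 0))
      by_cases h : i ≤ n
      · simp only [if_pos h]
        apply (hl i).congr'
        filter_upwards [eventually_gt_atTop n] with j hj
        have h2 : n < φ j := lt_of_lt_of_le hj (hφ.le_apply)
        rw [if_pos h2]
      · simp only [if_neg h]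
        exact tendsto_const_nhds
    have t3 := (hF.tendsto _).comp t1
    have t4 := (hF.tendsto _).comp t2
    have t5 := (t3.sub t4).norm
    rw [sub_self, norm_zero] at t5
    obtain ⟨j, hj⟩ := (t5.eventually (gt_mem_nhds hε)).exists
    exact absurd hj (not_lt.mpr (hlt (φ j)).le)
  obtain ⟨N, hN⟩ := key
  obtain ⟨c, L, hcL⟩ := h1 E K y N
    (fun v : K => F ⟨LL y (fun n => if n < N then (v : E) else 0), cl_mem K y N v.2⟩) hK
    (by
      intro a b z t ht0 ht1 hz
      apply hA ⟨LL y (fun n => if n < N then (a : E) else 0), cl_mem K y N a.2⟩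
        ⟨LL y (fun n => if n < N then (b : E) else 0), cl_mem K y N b.2⟩
        ⟨LL y (fun n => if n < N then (z : E) else 0), cl_mem K y N z.2⟩ t ht0 ht1
      funext n i
      show (if i ≤ n then y i (if n < N then (z : E) else 0) else 0) =
        t * (if i ≤ n then y i (if n < N then (a : E) else 0) else 0) +
        (1 - t) * (if i ≤ n then y i (if n < N then (b : E) else 0) else 0)
      by_cases h : i ≤ n
      · by_cases h' : n < N
        · simp only [if_pos h, if_pos h']
          rw [hz, map_add, map_smul, map_smul, smul_eq_mul, smul_eq_mul]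
        · simp only [if_pos h, if_neg h', map_zero]
          ring
      · simp only [if_neg h]
        ring)
    (by
      intro v w h
      have e : LL y (fun n => if n < N then (v : E) else 0) =
          LL y (fun n => if n < N then (w : E) else 0) := by
        funext n i
        show (if i ≤ n then y i (if n < N then (v : E) else 0) else 0) =
          (if i ≤ n then y i (if n < N then (w : E) else 0) else 0)
        by_cases h2 : i ≤ n
        · by_cases h' : n < N
          · simp only [if_pos h2, if_pos h']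
            exact h i (by omega)
          · simp only [if_neg h']
        · simp only [if_neg h2]
      exact congrArg F (Subtype.ext e))
  refine ⟨N, c, L, fun v hv => ?_⟩
  rw [← hcL ⟨v, hv⟩]
  exact hN v hv

end Pool.Agent.Helper43.AC
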